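import Pool.Agent.Helper79.GS.St3

/-!
# GS module CIR: circulations in the union of the perfect matchings of minimal weight have weight zero
-/

set_option autoImplicit false

namespace Pool.Agent.Helper7.GS

open Pool.Agent.Helper79.GS

open Classical in
private theorem cir_nonneg (n : ℕ) (E : Fin n → Fin n → Prop) (w : Fin n → Fin n → ℕ) (z : Fin n → Fin n → ℤ)
    (hr : ∀ i, ∑ j, z i j = 0) (hc : ∀ j, ∑ i, z i j = 0)
    (hz : ∀ i j, z i j ≠ 0 → ∃ σ, PMt E σ ∧ (∀ τ, PMt E τ → wsum w σ ≤ wsum w τ) ∧ σ i = j) :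
    0 ≤ ∑ i, ∑ j, z i j * (w i j : ℤ) := by
  set Mi : Finset (Equiv.Perm (Fin n)) :=
    Finset.univ.filter (fun σ => PMt E σ ∧ ∀ τ, PMt E τ → wsum w σ ≤ wsum w τ) with hMi
  have hmem : ∀ σ, σ ∈ Mi ↔ (PMt E σ ∧ ∀ τ, PMt E τ → wsum w σ ≤ wsum w τ) := by
    intro σ; simp [hMi]
  rcases Finset.eq_empty_or_nonempty Mi with hemp | ⟨σ0, hσ0⟩
  · have hz0 : ∀ i j, z i j = 0 := by
      intro i j
      by_contra h
      obtain ⟨σ, h1, h2, -⟩ := hz i j h
      have : σ ∈ Mi := (hmem σ).2 ⟨h1, h2⟩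
      rw [hemp] at this
      exact absurd this (Finset.notMem_empty _)
    simp [hz0]
  have hm : ∀ σ ∈ Mi, wsum w σ = wsum w σ0 := by
    intro σ hσ
    exact le_antisymm (((hmem σ).1 hσ).2 σ0 ((hmem σ0).1 hσ0).1) (((hmem σ0).1 hσ0).2 σ ((hmem σ).1 hσ).1)
  set K : ℝ := (Mi.card : ℝ) with hK
  have hKpos : 0 < K := by
    rw [hK]; exact_mod_cast Finset.card_pos.2 ⟨σ0, hσ0⟩
  set c : Fin n → Fin n → ℝ := fun i j => ∑ σ ∈ Mi, if σ i = j then (1 : ℝ) else 0 with hcdef
  have hc0 : ∀ i j, 0 ≤ c i j := fun i j => Finset.sum_nonneg fun σ _ => by split_ifs <;> norm_num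
  have hc1 : ∀ i j, (∃ σ ∈ Mi, σ i = j) → 1 ≤ c i j := by
    rintro i j ⟨σ, hσ, hij⟩
    calc (1 : ℝ) = (if σ i = j then (1 : ℝ) else 0) := by rw [if_pos hij]
      _ ≤ c i j := Finset.single_le_sum (f := fun σ : Equiv.Perm (Fin n) => if σ i = j then (1 : ℝ) else 0)
          (fun σ _ => by split_ifs <;> norm_num) hσ
  have hcex : ∀ i j, c i j ≠ 0 → ∃ σ ∈ Mi, σ i = j := by
    intro i j h
    by_contra hno
    push Not at hno
    exact h (Finset.sum_eq_zero fun σ hσ => if_neg (hno σ hσ))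
  have hcrow : ∀ i, ∑ j, c i j = K := by
    intro i
    rw [hcdef]
    simp only
    rw [Finset.sum_comm]
    simp [hK]
  have hccol : ∀ j, ∑ i, c i j = K := by
    intro j
    rw [hcdef]
    simp only
    rw [Finset.sum_comm]
    have : ∀ σ ∈ Mi, ∑ i, (if σ i = j then (1 : ℝ) else 0) = 1 := by
      intro σ _
      rw [Equiv.sum_comp σ (fun a => if a = j then (1 : ℝ) else 0)]
      simp
    rw [Finset.sum_congr rfl this]
    simp [hK]
  have hcw : ∑ i, ∑ j, c i j * (w i j : ℝ) = K * (wsum w σ0 : ℝ) := by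
    have e1 : ∀ i j, c i j * (w i j : ℝ) = ∑ σ ∈ Mi, if σ i = j then (w i j : ℝ) else 0 := by
      intro i j
      rw [hcdef]
      simp only
      rw [Finset.sum_mul]
      exact Finset.sum_congr rfl fun σ _ => by split_ifs <;> simp
    simp only [e1]
    have e2 : ∀ i, ∑ j, ∑ σ ∈ Mi, (if σ i = j then (w i j : ℝ) else 0) = ∑ σ ∈ Mi, (w i (σ i) : ℝ) := by
      intro i
      rw [Finset.sum_comm]
      exact Finset.sum_congr rfl fun σ _ => by simp
    simp only [e2]
    rw [Finset.sum_comm]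
    have e3 : ∀ σ ∈ Mi, ∑ i, (w i (σ i) : ℝ) = (wsum w σ0 : ℝ) := by
      intro σ hσ
      rw [← hm σ hσ, wsum]
      push_cast
      rfl
    rw [Finset.sum_congr rfl e3]
    simp [hK]
  set S : ℝ := ∑ i, ∑ j, |(z i j : ℝ)| with hS
  have hS0 : 0 ≤ S := Finset.sum_nonneg fun i _ => Finset.sum_nonneg fun j _ => abs_nonneg _
  have hzS : ∀ i j, |(z i j : ℝ)| ≤ S := by
    intro i j
    calc |(z i j : ℝ)| ≤ ∑ j, |(z i j : ℝ)| :=
          Finset.single_le_sum (f := fun j => |(z i j : ℝ)|) (fun _ _ => abs_nonneg _) (Finset.mem_univ j)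
      _ ≤ S := Finset.single_le_sum (f := fun i => ∑ j, |(z i j : ℝ)|)
          (fun _ _ => Finset.sum_nonneg fun _ _ => abs_nonneg _) (Finset.mem_univ i)
  have hS1 : 0 < 1 + S := by linarith
  set M : Matrix (Fin n) (Fin n) ℝ := Matrix.of fun i j => (c i j + (z i j : ℝ) / (1 + S)) / K with hM
  have hMa : ∀ i j, M i j = (c i j + (z i j : ℝ) / (1 + S)) / K := fun i j => rfl
  have hMds : M ∈ doublyStochastic ℝ (Fin n) := by
    rw [mem_doublyStochastic_iff_sum]
    refine ⟨fun i j => ?_, fun i => ?_, fun j => ?_⟩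
    · rw [hMa]
      refine div_nonneg ?_ hKpos.le
      by_cases h : z i j = 0
      · rw [h]; simpa using hc0 i j
      · obtain ⟨σ, h1, h2, h3⟩ := hz i j h
        have h4 : 1 ≤ c i j := hc1 i j ⟨σ, (hmem σ).2 ⟨h1, h2⟩, h3⟩
        have h5 : -1 ≤ (z i j : ℝ) / (1 + S) := by
          rw [le_div_iff₀ hS1]
          have := neg_abs_le (z i j : ℝ)
          have := hzS i j
          linarith
        linarith
    · simp only [hMa]
      rw [← Finset.sum_div, Finset.sum_add_distrib, ← Finset.sum_div, hcrow]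
      have : ∑ j, (z i j : ℝ) = 0 := by exact_mod_cast hr i
      rw [this, zero_div, add_zero, div_self hKpos.ne']
    · simp only [hMa]
      rw [← Finset.sum_div, Finset.sum_add_distrib, ← Finset.sum_div, hccol]
      have : ∑ i, (z i j : ℝ) = 0 := by exact_mod_cast hc j
      rw [this, zero_div, add_zero, div_self hKpos.ne']
  obtain ⟨l, hl0, hl1, hl2⟩ := exists_eq_sum_perm_of_mem_doublyStochastic hMds
  have hperm : ∀ (σ : Equiv.Perm (Fin n)) (i j : Fin n),
      (Equiv.Perm.permMatrix ℝ σ) i j = if σ i = j then 1 else 0 := by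
    intro σ i j
    simp [Equiv.Perm.permMatrix, PEquiv.toMatrix_apply, Equiv.toPEquiv_apply, eq_comm]
  have hMl : ∀ i j, M i j = ∑ σ, l σ * (if σ i = j then 1 else 0) := by
    intro i j
    rw [← hl2, Matrix.sum_apply]
    exact Finset.sum_congr rfl fun σ _ => by rw [Matrix.smul_apply, hperm, smul_eq_mul]
  have hpos : ∀ σ, l σ ≠ 0 → wsum w σ0 ≤ wsum w σ := by
    intro σ hσ
    refine ((hmem σ0).1 hσ0).2 σ fun a => ?_
    have h1 : 0 < M a (σ a) := by
      rw [hMl]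
      refine lt_of_lt_of_le (lt_of_le_of_ne (hl0 σ) (Ne.symm hσ)) ?_
      have := Finset.single_le_sum (f := fun τ : Equiv.Perm (Fin n) => l τ * (if τ a = σ a then 1 else 0))
        (fun τ _ => mul_nonneg (hl0 τ) (by split_ifs <;> norm_num)) (Finset.mem_univ σ)
      simpa using this
    have h2 : c a (σ a) ≠ 0 ∨ z a (σ a) ≠ 0 := by
      by_contra h
      push Not at h
      rw [hMa, h.1, h.2] at h1
      simp at h1
    have h3 : ∃ τ ∈ Mi, τ a = σ a := by
      rcases h2 with h2 | h2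
      · exact hcex _ _ h2
      · obtain ⟨τ, t1, t2, t3⟩ := hz _ _ h2
        exact ⟨τ, (hmem τ).2 ⟨t1, t2⟩, t3⟩
    obtain ⟨τ, t1, t2⟩ := h3
    rw [← t2]
    exact ((hmem τ).1 t1).1 a
  have hMw : ∑ i, ∑ j, M i j * (w i j : ℝ) = ∑ σ, l σ * (wsum w σ : ℝ) := by
    simp only [hMl, Finset.sum_mul]
    have e1 : ∀ i, ∑ j, ∑ σ, l σ * (if σ i = j then 1 else 0) * (w i j : ℝ) = ∑ σ, l σ * (w i (σ i) : ℝ) := by
      intro i
      rw [Finset.sum_comm]
      refine Finset.sum_congr rfl fun σ _ => ?_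
      rw [Finset.sum_eq_single (σ i)]
      · simp
      · intro b _ hb
        rw [if_neg (Ne.symm hb)]; simp
      · intro h; exact absurd (Finset.mem_univ _) h
    simp only [e1]
    rw [Finset.sum_comm]
    refine Finset.sum_congr rfl fun σ _ => ?_
    rw [← Finset.mul_sum, wsum]
    push_cast
    rfl
  have hge : (wsum w σ0 : ℝ) ≤ ∑ i, ∑ j, M i j * (w i j : ℝ) := by
    rw [hMw]
    calc (wsum w σ0 : ℝ) = ∑ σ, l σ * (wsum w σ0 : ℝ) := by rw [← Finset.sum_mul, hl1, one_mul]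
      _ ≤ ∑ σ, l σ * (wsum w σ : ℝ) := by
          refine Finset.sum_le_sum fun σ _ => ?_
          by_cases h : l σ = 0
          · rw [h]; simp
          · exact mul_le_mul_of_nonneg_left (by exact_mod_cast hpos σ h) (hl0 σ)
  have hMsplit : ∑ i, ∑ j, M i j * (w i j : ℝ) =
      (wsum w σ0 : ℝ) + (∑ i, ∑ j, (z i j : ℝ) * (w i j : ℝ)) / ((1 + S) * K) := by
    have e1 : ∀ i j, M i j * (w i j : ℝ) = (c i j * (w i j : ℝ)) / K + ((z i j : ℝ) * (w i j : ℝ)) / ((1 + S) * K) := by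
      intro i j
      rw [hMa]
      field_simp
    simp only [e1, Finset.sum_add_distrib, ← Finset.sum_div]
    rw [hcw, mul_comm K, mul_div_assoc, div_self hKpos.ne', mul_one]
  rw [hMsplit] at hge
  have h6 : 0 ≤ (∑ i, ∑ j, (z i j : ℝ) * (w i j : ℝ)) / ((1 + S) * K) := by linarith
  have h7 : 0 ≤ ∑ i, ∑ j, (z i j : ℝ) * (w i j : ℝ) := by
    rwa [le_div_iff₀ (mul_pos hS1 hKpos), zero_mul] at h6
  exact_mod_cast h7

/-- **CIR** -/
theorem hCIR : StCIR := by
  intro n E w z hr hc hz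
  have h1 := cir_nonneg n E w z hr hc hz
  have h2 := cir_nonneg n E w (fun i j => - z i j) (fun i => by simp [hr i]) (fun j => by simp [hc j])
    (fun i j h => hz i j (by simpa using h))
  simp only [neg_mul, Finset.sum_neg_distrib] at h2
  omega

end Pool.Agent.Helper7.GS
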